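import Pool.Agent.helper1.CD.Spec

/-!
# Row cd:DSL (MP_2e0e07_nt): basic rules for the Dirichlet series of a set of places
-/

set_option autoImplicit false

open NumberField IsDedekindDomain Complex Pool.Agent.CH Pool.Agent.GK

namespace Pool.Agent.CD

theorem DSL_nonneg {x : ℕ} {s : ℝ} : 0 ≤ (x : ℝ) ^ (-s) := Real.rpow_nonneg (Nat.cast_nonneg x) _

theorem DSL_le_one {x : ℕ} {s : ℝ} (hs : 1 < s) : (x : ℝ) ^ (-s) ≤ 1 := by
  rcases Nat.eq_zero_or_pos x with h | h
  · subst h
    rw [Nat.cast_zero, Real.zero_rpow (by linarith)]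
    exact zero_le_one
  · exact Real.rpow_le_one_of_one_le_of_nonpos (by exact_mod_cast h) (by linarith)

theorem DSL (hSMB : SMB_stmt) : DSL_stmt := by
  intro K _ _ s hs
  have hsum := (hSMB K).1 s hs
  have hsub : ∀ S : Set (Pl K), Summable fun v : S => (nv K v : ℝ) ^ (-s) := fun S => hsum.subtype S
  refine ⟨?_, ?_, ?_, ?_⟩
  · intro S
    exact tsum_nonneg fun v => DSL_nonneg
  · intro S S' h
    unfold DS
    rw [tsum_subtype S (fun v : Pl K => (nv K v : ℝ) ^ (-s)), tsum_subtype S' (fun v : Pl K => (nv K v : ℝ) ^ (-s))]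
    refine Summable.tsum_le_tsum (fun v => ?_) (hsum.indicator S) (hsum.indicator S')
    exact Set.indicator_le_indicator_of_subset h (fun v => DSL_nonneg) v
  · intro S S' h
    exact Summable.tsum_union_disjoint (f := fun v : Pl K => (nv K v : ℝ) ^ (-s)) h (hsub S) (hsub S')
  · intro T hT
    have hf : Finite T := hT
    have hft : Fintype T := hT.fintype
    unfold DS
    rw [tsum_fintype]
    calc ∑ v : T, (nv K v : ℝ) ^ (-s) ≤ ∑ _v : T, (1 : ℝ) := Finset.sum_le_sum fun v _ => DSL_le_one hs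
      _ = (T.ncard : ℝ) := by
          rw [Finset.sum_const, Finset.card_univ, nsmul_eq_mul, mul_one, ← Nat.card_coe_set_eq, Nat.card_eq_fintype_card]

end Pool.Agent.CD

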